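import Pool.Agent.W659.FD.Stm

set_option autoImplicit false

namespace Pool.Agent.W346.FD

open MvPolynomial Pool.Agent.W659.FD

attribute [local instance] MvPolynomial.algebraMvPolynomial

/-- integer polynomial equations solvable modulo infinitely many primes are solvable over the
complex numbers -/
theorem transfer {σ : Type} [Finite σ] (I : Ideal (MvPolynomial σ ℤ))
    (h : ∀ N : ℕ, ∃ p : ℕ, p.Prime ∧ N ≤ p ∧ ∃ x : σ → ZMod p, ∀ f ∈ I, aeval x f = 0) :
    ∃ x : σ → ℂ, ∀ f ∈ I, aeval x f = 0 := by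
  classical
  set J : Ideal (MvPolynomial σ ℚ) :=
    I.map (algebraMap (MvPolynomial σ ℤ) (MvPolynomial σ ℚ)) with hJ
  have hJtop : J ≠ ⊤ := by
    intro htop
    have h1 : (1 : MvPolynomial σ ℚ) ∈ J := by
      rw [htop]
      trivial
    rw [hJ, IsLocalization.mem_map_algebraMap_iff
      (Submonoid.map C (nonZeroDivisors ℤ)) (MvPolynomial σ ℚ)] at h1
    obtain ⟨⟨a, s⟩, hs⟩ := h1
    obtain ⟨N, hN, hNs⟩ := Submonoid.mem_map.1 s.2
    have hN0 : N ≠ 0 := nonZeroDivisors.ne_zero hN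
    have h2 : (a : MvPolynomial σ ℤ) = C N := by
      have h3 : Function.Injective (algebraMap (MvPolynomial σ ℤ) (MvPolynomial σ ℚ)) := by
        have h4 : (algebraMap (MvPolynomial σ ℤ) (MvPolynomial σ ℚ)) =
            MvPolynomial.map (algebraMap ℤ ℚ) := rfl
        rw [h4]
        exact MvPolynomial.map_injective _ (algebraMap ℤ ℚ).injective_int
      apply h3
      rw [one_mul] at hs
      rw [← hs]
      congr 1
      exact hNs.symm
    obtain ⟨p, hp, hNp, x, hx⟩ := h (N.natAbs + 1)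
    have h3 := hx _ a.2
    rw [h2] at h3
    simp only [eq_intCast, map_intCast] at h3
    rw [ZMod.intCast_zmod_eq_zero_iff_dvd] at h3
    have h4 := Int.natAbs_dvd_natAbs.2 h3
    rw [Int.natAbs_natCast] at h4
    have h5 := Nat.le_of_dvd (Int.natAbs_pos.2 hN0) h4
    omega
  obtain ⟨m, hm, hJm⟩ := J.exists_le_maximal hJtop
  letI : Field (MvPolynomial σ ℚ ⧸ m) := Ideal.Quotient.field m
  haveI : Module.Finite ℚ (MvPolynomial σ ℚ ⧸ m) := finite_of_finite_type_of_isJacobsonRing _ _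
  haveI : Algebra.IsAlgebraic ℚ (MvPolynomial σ ℚ ⧸ m) := Algebra.IsAlgebraic.of_finite _ _
  let e : (MvPolynomial σ ℚ ⧸ m) →ₐ[ℚ] ℂ := IsAlgClosed.lift
  refine ⟨fun i => e (Ideal.Quotient.mk m (X i)), fun f hf => ?_⟩
  have h1 : algebraMap (MvPolynomial σ ℤ) (MvPolynomial σ ℚ) f ∈ m :=
    hJm (Ideal.mem_map_of_mem _ hf)
  have h2 : (aeval (fun i => e (Ideal.Quotient.mk m (X i))) : MvPolynomial σ ℤ →ₐ[ℤ] ℂ).toRingHom =
      ((e : (MvPolynomial σ ℚ ⧸ m) →+* ℂ).comp (Ideal.Quotient.mk m)).comp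
        (algebraMap (MvPolynomial σ ℤ) (MvPolynomial σ ℚ)) := by
    apply MvPolynomial.ringHom_ext
    · intro z
      simp
    · intro i
      have h4 : (algebraMap (MvPolynomial σ ℤ) (MvPolynomial σ ℚ)) (X i) = X i := by
        have h4 : (algebraMap (MvPolynomial σ ℤ) (MvPolynomial σ ℚ)) =
            MvPolynomial.map (algebraMap ℤ ℚ) := rfl
        rw [h4, map_X]
      simp [h4]
  have h3 : aeval (fun i => e (Ideal.Quotient.mk m (X i))) f =
      (aeval (fun i => e (Ideal.Quotient.mk m (X i))) : MvPolynomial σ ℤ →ₐ[ℤ] ℂ).toRingHom f := rfl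
  rw [h3, h2]
  show e (Ideal.Quotient.mk m (algebraMap (MvPolynomial σ ℤ) (MvPolynomial σ ℚ) f)) = 0
  rw [Ideal.Quotient.eq_zero_iff_mem.2 h1, map_zero]

/-- generic specialisation over a commutative ring -/
noncomputable def gsp {A : Type} [CommRing A] {r n : ℕ} (F : Poly r n) (V : Fin r × Fin 3 → A) :
    MvPolynomial (Fin n) A :=
  aeval (Sum.elim (fun ij => C (V ij)) X) F

lemma map_gsp {A B : Type} [CommRing A] [CommRing B] (ψ : A →+* B) {r n : ℕ} (F : Poly r n)
    (V : Fin r × Fin 3 → A) : MvPolynomial.map ψ (gsp F V) = gsp F (fun ij => ψ (V ij)) := by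
  unfold gsp
  induction F using MvPolynomial.induction_on with
  | C a => simp
  | add p q hp hq => rw [map_add, map_add, map_add, hp, hq]
  | mul_X p i hp =>
    rw [map_mul, map_mul, map_mul, hp]
    congr 1
    rcases i with ij | k <;> simp

lemma spec_eq {K : Type} [Field K] {r n : ℕ} (F : Poly r n) (V : Fin r → Fin 3 → K) :
    spec F V = gsp F (fun ij => V ij.1 ij.2) := rfl

/-- uniform bound for the degrees -/
lemma deg_bound {r n : ℕ} (F : Poly r n) : ∃ D : ℕ, ∀ (K : Type) [Field K]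
    (V : Fin r × Fin 3 → K), (gsp F V).totalDegree ≤ D := by
  refine ⟨(gsp F (fun ij => (X ij : MvPolynomial (Fin r × Fin 3) ℤ))).totalDegree, ?_⟩
  intro K _ V
  have h1 : gsp F V = MvPolynomial.map ((aeval V : MvPolynomial (Fin r × Fin 3) ℤ →ₐ[ℤ] K) :
      MvPolynomial (Fin r × Fin 3) ℤ →+* K)
      (gsp F (fun ij => (X ij : MvPolynomial (Fin r × Fin 3) ℤ))) := by
    rw [map_gsp]
    congr 1
    funext ij
    simp
  rw [h1]
  refine Finset.sup_mono ?_
  exact MvPolynomial.support_map_subset _ _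

/-- the exponents -/
noncomputable def expo (n D : ℕ) : Finset (Fin n →₀ ℕ) :=
  Finset.Icc 0 (Finsupp.equivFunOnFinite.symm fun _ => D)

lemma mem_expo {n D : ℕ} (α : Fin n →₀ ℕ) : α ∈ expo n D ↔ ∀ i, α i ≤ D := by
  unfold expo
  rw [Finset.mem_Icc]
  constructor
  · intro h i
    exact h.2 i
  · intro h
    exact ⟨fun i => Nat.zero_le _, fun i => h i⟩

/-- the variables of the system -/
abbrev Vars (r n D : ℕ) : Type :=
  ((Fin r × Fin 3) ⊕ (Fin r × Fin 3)) ⊕ (Unit ⊕ {α : Fin n →₀ ℕ // α ∈ expo n D})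

/-- the generic polynomial -/
noncomputable def gg {A : Type} [CommRing A] (n D : ℕ)
    (c : {α : Fin n →₀ ℕ // α ∈ expo n D} → A) : MvPolynomial (Fin n) A :=
  ∑ α : {α : Fin n →₀ ℕ // α ∈ expo n D}, monomial α.1 (c α)

lemma map_gg {A B : Type} [CommRing A] [CommRing B] (ψ : A →+* B) (n D : ℕ)
    (c : {α : Fin n →₀ ℕ // α ∈ expo n D} → A) :
    MvPolynomial.map ψ (gg n D c) = gg n D (fun α => ψ (c α)) := by
  unfold gg
  rw [map_sum]
  exact Finset.sum_congr rfl fun α _ => map_monomial _ _ _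

lemma gg_coeff {A : Type} [CommRing A] (n D : ℕ) (g : MvPolynomial (Fin n) A)
    (hg : g.totalDegree ≤ D) : gg n D (fun α => g.coeff α.1) = g := by
  classical
  unfold gg
  have h1 : g.support ⊆ expo n D := by
    intro α hα
    rw [mem_expo]
    intro i
    have h2 := le_totalDegree hα
    have h3 : α i ≤ α.sum fun _ e => e := by
      by_cases h4 : α i = 0
      · rw [h4]
        exact Nat.zero_le _
      · exact Finset.single_le_sum (f := fun j => α j) (fun _ _ => Nat.zero_le _)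
          (Finsupp.mem_support_iff.2 h4)
    omega
  have h2 : ∑ α : {α : Fin n →₀ ℕ // α ∈ expo n D}, monomial α.1 (g.coeff α.1) =
      ∑ α ∈ expo n D, monomial α (g.coeff α) :=
    Finset.sum_coe_sort (expo n D) (fun α => monomial α (g.coeff α))
  rw [h2]
  conv_rhs => rw [g.as_sum]
  refine (Finset.sum_subset h1 fun α _ hα => ?_).symm
  rw [notMem_support_iff.1 hα, map_zero]

/-- the equations -/
noncomputable def eqs {r n : ℕ} (D : ℕ) (a b : Fin r → ℤ) (F : Poly r n) :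
    Set (MvPolynomial (Vars r n D) ℤ) :=
  (Set.range fun i : Fin r => X (Sum.inl (Sum.inl (i, 1))) ^ 2 * X (Sum.inl (Sum.inl (i, 2))) -
      (X (Sum.inl (Sum.inl (i, 0))) ^ 3 + C (a i) * X (Sum.inl (Sum.inl (i, 0))) *
        X (Sum.inl (Sum.inl (i, 2))) ^ 2 + C (b i) * X (Sum.inl (Sum.inl (i, 2))) ^ 3)) ∪
  (Set.range fun i : Fin r => (∑ j : Fin 3, X (Sum.inl (Sum.inl (i, j))) *
      X (Sum.inl (Sum.inr (i, j)))) - 1) ∪
  (Set.range fun β : Fin n →₀ ℕ =>
    (gsp F (fun ij => (X (Sum.inl (Sum.inl ij)) : MvPolynomial (Vars r n D) ℤ)) -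
      C (X (Sum.inr (Sum.inl ()))) *
        gg n D (fun α => (X (Sum.inr (Sum.inr α)) : MvPolynomial (Vars r n D) ℤ)) ^ 2).coeff β)

lemma sys_iff {K : Type} [CommRing K] {r n : ℕ} (D : ℕ) (a b : Fin r → ℤ) (F : Poly r n)
    (x : Vars r n D → K) : (∀ f ∈ Ideal.span (eqs D a b F), aeval x f = 0) ↔
      ((∀ i, x (Sum.inl (Sum.inl (i, 1))) ^ 2 * x (Sum.inl (Sum.inl (i, 2))) =
        x (Sum.inl (Sum.inl (i, 0))) ^ 3 + (a i : K) * x (Sum.inl (Sum.inl (i, 0))) *
        x (Sum.inl (Sum.inl (i, 2))) ^ 2 + (b i : K) * x (Sum.inl (Sum.inl (i, 2))) ^ 3) ∧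
      (∀ i, ∑ j : Fin 3, x (Sum.inl (Sum.inl (i, j))) * x (Sum.inl (Sum.inr (i, j))) = 1) ∧
      gsp F (fun ij => x (Sum.inl (Sum.inl ij))) = C (x (Sum.inr (Sum.inl ()))) *
        gg n D (fun α => x (Sum.inr (Sum.inr α))) ^ 2) := by
  have h1 : (∀ f ∈ Ideal.span (eqs D a b F), aeval x f = 0) ↔ ∀ f ∈ eqs D a b F,
      aeval x f = 0 := by
    constructor
    · intro h f hf
      exact h f (Ideal.subset_span hf)
    · intro h f hf
      have h2 : Ideal.span (eqs D a b F) ≤
          RingHom.ker (aeval x : MvPolynomial (Vars r n D) ℤ →ₐ[ℤ] K) :=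
        Ideal.span_le.2 fun g hg => h g hg
      exact h2 hf
  rw [h1]
  have h3 : ∀ (g : MvPolynomial (Fin n) (MvPolynomial (Vars r n D) ℤ)),
      (∀ β, aeval x (g.coeff β) = 0) ↔
      MvPolynomial.map ((aeval x : MvPolynomial (Vars r n D) ℤ →ₐ[ℤ] K) :
        MvPolynomial (Vars r n D) ℤ →+* K) g = 0 := by
    intro g
    constructor
    · intro h
      ext β
      rw [coeff_map, coeff_zero]
      exact h β
    · intro h β
      have := congrArg (fun q => coeff β q) h
      simp only [coeff_map, coeff_zero] at this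
      exact this
  have h4 : MvPolynomial.map ((aeval x : MvPolynomial (Vars r n D) ℤ →ₐ[ℤ] K) :
        MvPolynomial (Vars r n D) ℤ →+* K)
      (gsp F (fun ij => (X (Sum.inl (Sum.inl ij)) : MvPolynomial (Vars r n D) ℤ)) -
      C (X (Sum.inr (Sum.inl ()))) *
        gg n D (fun α => (X (Sum.inr (Sum.inr α)) : MvPolynomial (Vars r n D) ℤ)) ^ 2) =
      gsp F (fun ij => x (Sum.inl (Sum.inl ij))) - C (x (Sum.inr (Sum.inl ()))) *
        gg n D (fun α => x (Sum.inr (Sum.inr α))) ^ 2 := by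
    rw [map_sub, map_mul, map_pow, map_gsp, map_gg, map_C]
    simp
  unfold eqs
  constructor
  · intro h
    refine ⟨fun i => ?_, fun i => ?_, ?_⟩
    · have h5 := h _ (Or.inl (Or.inl ⟨i, rfl⟩))
      simp only [map_sub, map_mul, map_pow, map_add, aeval_X, eq_intCast, map_intCast] at h5
      exact sub_eq_zero.1 h5
    · have h5 := h _ (Or.inl (Or.inr ⟨i, rfl⟩))
      simp only [map_sub, map_mul, map_sum, aeval_X, map_one] at h5
      exact sub_eq_zero.1 h5
    · have h5 := (h3 _).1 fun β => h _ (Or.inr ⟨β, rfl⟩)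
      rw [h4] at h5
      exact sub_eq_zero.1 h5
  · rintro ⟨h5, h6, h7⟩ f hf
    rcases hf with (⟨i, rfl⟩ | ⟨i, rfl⟩) | ⟨β, rfl⟩
    · simp only [map_sub, map_mul, map_pow, map_add, aeval_X, eq_intCast, map_intCast]
      exact sub_eq_zero.2 (h5 i)
    · simp only [map_sub, map_mul, map_sum, aeval_X, map_one]
      exact sub_eq_zero.2 (h6 i)
    · refine (h3 _).2 ?_ β
      rw [h4]
      exact sub_eq_zero.2 h7

theorem main : S_ULT := by
  intro r n a b F hF
  by_contra hcon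
  push Not at hcon
  obtain ⟨D, hD⟩ := deg_bound F
  obtain ⟨x, hx⟩ := transfer (Ideal.span (eqs D a b F)) (by
    intro N
    obtain ⟨p, hp, hNp, V, hV, c, g, hcg⟩ := hcon N
    refine ⟨p, hp.out, hNp, ?_⟩
    -- a good g
    obtain ⟨g', hg', hg'D⟩ : ∃ g' : MvPolynomial (Fin n) (ZMod p),
        spec F V = C c * g' ^ 2 ∧ g'.totalDegree ≤ D := by
      by_cases h1 : c = 0 ∨ g = 0
      · refine ⟨0, ?_, by simp⟩
        rw [hcg]
        rcases h1 with h1 | h1 <;> simp [h1]
      · push Not at h1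
        refine ⟨g, hcg, ?_⟩
        have h2 := hD (ZMod p) (fun ij => V ij.1 ij.2)
        rw [← spec_eq, hcg, pow_two, totalDegree_mul_of_isDomain
          (by rw [Ne, C_eq_zero]; exact h1.1) (mul_ne_zero h1.2 h1.2),
          totalDegree_mul_of_isDomain h1.2 h1.2] at h2
        omega
    -- inverses
    have hW : ∀ i, ∃ W : Fin 3 → ZMod p, ∑ j, V i j * W j = 1 := by
      intro i
      obtain ⟨j, hj⟩ := Function.ne_iff.1 (hV i).1
      refine ⟨Pi.single j (V i j)⁻¹, ?_⟩
      rw [Finset.sum_eq_single j]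
      · rw [Pi.single_eq_same]
        exact mul_inv_cancel₀ hj
      · intro k _ hk
        rw [Pi.single_eq_of_ne hk, mul_zero]
      · intro h
        exact absurd (Finset.mem_univ j) h
    choose W hW using hW
    refine ⟨Sum.elim (Sum.elim (fun ij => V ij.1 ij.2) (fun ij => W ij.1 ij.2))
      (Sum.elim (fun _ => c) (fun α => g'.coeff α.1)), ?_⟩
    rw [sys_iff]
    refine ⟨fun i => ?_, fun i => ?_, ?_⟩
    · exact (hV i).2
    · exact hW i
    · simp only [Sum.elim_inl, Sum.elim_inr]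
      rw [gg_coeff n D g' hg'D]
      exact hg')
  rw [sys_iff] at hx
  obtain ⟨h1, h2, h3⟩ := hx
  obtain ⟨z, hz⟩ := IsAlgClosed.exists_pow_nat_eq (x (Sum.inr (Sum.inl ()))) (n := 2) (by norm_num)
  refine hF (fun i j => x (Sum.inl (Sum.inl (i, j)))) (fun i => ⟨?_, h1 i⟩)
    (C z * gg n D (fun α => x (Sum.inr (Sum.inr α)))) ?_
  · intro h0
    have h4 := h2 i
    have h5 : ∀ j, x (Sum.inl (Sum.inl (i, j))) = 0 := fun j => congrFun h0 j
    simp [h5] at h4
  · rw [mul_pow, ← C_pow, hz]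
    exact h3

end Pool.Agent.W346.FD
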